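import Pool.Agent.Helper91.CPX.Defs

/-!
MP_464c42_nt (small radicals on projective space). In a vector of nonzero integers with sum zero, with small gcd and a large entry
`a j`, two entries have no small ratio to `a j`.

Proof. Otherwise all entries but one, `a l0`, satisfy `a j ∣ a l * s_l` with `0 < |s_l| ≤ 2 L`; with `Π` the product of the `n` numbers `s_l`,
`l ≠ j, l0`, one gets `a j ∣ a l * Π` for `l ≠ l0`, hence also for `l = l0` as the sum is zero, so `|a j| ≤ (2 L) ^ n G`.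
-/

set_option autoImplicit false

open Pool.Agent.Helper91.CPX

namespace Pool.Agent.Helper58.TW

theorem small_of_bad {n : ℕ} (a : Fin (n + 2) → ℤ) (ha : ∀ i, a i ≠ 0) (L : ℤ) (hL : 1 ≤ L)
    (j l : Fin (n + 2)) (hbad : ¬ (j ≠ l ∧ a j + a l ≠ 0 ∧ NoSmallRatio (a j) (a j + a l) L)) :
    ∃ s : ℤ, s ≠ 0 ∧ |s| ≤ 2 * L ∧ a j ∣ a l * s := by
  by_cases hjl : j = l
  · refine ⟨1, one_ne_zero, ?_, ?_⟩
    · rw [abs_one]; omega
    · rw [hjl, mul_one]
  · by_cases h0 : a j + a l = 0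
    · refine ⟨1, one_ne_zero, ?_, ⟨-1, ?_⟩⟩
      · rw [abs_one]; omega
      · have : a l = - a j := by omega
        rw [this]; ring
    · have h1 : ¬ NoSmallRatio (a j) (a j + a l) L := fun h => hbad ⟨hjl, h0, h⟩
      unfold NoSmallRatio at h1
      push Not at h1
      obtain ⟨p, q, hp, hq, he, hpq⟩ := h1
      have hp0 : p ≠ 0 := by
        intro hp0
        rw [hp0, mul_zero] at he
        rcases mul_eq_zero.1 he with h2 | h2
        · exact ha j h2
        · exact hpq hp0 h2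
      refine ⟨p, hp0, by omega, ⟨q - p, ?_⟩⟩
      have : a j * q = a j * p + a l * p := by rw [he]; ring
      linarith [this, mul_sub (a j) q p]

theorem pick2 {n : ℕ} (a : Fin (n + 2) → ℤ) (ha : ∀ i, a i ≠ 0) (hsum : ∑ i, a i = 0) (G L : ℤ)
    (hG : ∀ g : ℤ, (∀ i, g ∣ a i) → |g| ≤ G) (hL : 1 ≤ L) (j : Fin (n + 2))
    (hj : G * (2 * L) ^ n < |a j|) :
    ∃ l l' : Fin (n + 2), j ≠ l ∧ j ≠ l' ∧ l ≠ l' ∧
      (a j + a l ≠ 0 ∧ NoSmallRatio (a j) (a j + a l) L) ∧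
      (a j + a l' ≠ 0 ∧ NoSmallRatio (a j) (a j + a l') L) := by
  classical
  by_contra hcon
  -- one index `l0 ≠ j` such that all others are bad
  have hl0 : ∃ l0, j ≠ l0 ∧ ∀ l, l ≠ l0 →
      ¬ (j ≠ l ∧ a j + a l ≠ 0 ∧ NoSmallRatio (a j) (a j + a l) L) := by
    by_cases hg : ∃ l0, j ≠ l0 ∧ a j + a l0 ≠ 0 ∧ NoSmallRatio (a j) (a j + a l0) L
    · obtain ⟨l0, h1, h2, h3⟩ := hg
      exact ⟨l0, h1, fun l hl hl' => hcon ⟨l, l0, hl'.1, h1, hl, hl'.2, h2, h3⟩⟩
    · push Not at hg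
      obtain ⟨l0, hl0⟩ := exists_ne j
      exact ⟨l0, Ne.symm hl0, fun l _ hl' => hg l hl'.1 hl'.2.1 hl'.2.2⟩
  obtain ⟨l0, hjl0, hbad⟩ := hl0
  have hs : ∀ l, ∃ s : ℤ, l ≠ l0 → (s ≠ 0 ∧ |s| ≤ 2 * L ∧ a j ∣ a l * s) := by
    intro l
    by_cases h : l = l0
    · exact ⟨0, fun h' => absurd h h'⟩
    · obtain ⟨s, h1⟩ := small_of_bad a ha L hL j l (hbad l h)
      exact ⟨s, fun _ => h1⟩
  choose s hs using hs
  obtain ⟨P, hP⟩ : ∃ P : ℤ, P = ∏ l ∈ (Finset.univ.erase j).erase l0, s l := ⟨_, rfl⟩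
  have hne : ∀ l ∈ (Finset.univ.erase j).erase l0, l ≠ l0 := fun l hl => (Finset.mem_erase.1 hl).1
  have hP0 : P ≠ 0 := by
    rw [hP]
    exact Finset.prod_ne_zero_iff.2 fun l hl => (hs l (hne l hl)).1
  have hPL : |P| ≤ (2 * L) ^ n := by
    rw [hP, Finset.abs_prod]
    calc ∏ l ∈ (Finset.univ.erase j).erase l0, |s l|
        ≤ ∏ _l ∈ (Finset.univ.erase j).erase l0, (2 * L) :=
          Finset.prod_le_prod (fun l _ => abs_nonneg _) fun l hl => (hs l (hne l hl)).2.1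
      _ = (2 * L) ^ n := by
          rw [Finset.prod_const, Finset.card_erase_of_mem
            (Finset.mem_erase.2 ⟨Ne.symm hjl0, Finset.mem_univ l0⟩),
            Finset.card_erase_of_mem (Finset.mem_univ j), Finset.card_univ, Fintype.card_fin]
          rfl
  have hd1 : ∀ l, l ≠ l0 → a j ∣ a l * P := by
    intro l hl
    by_cases hjl : l = j
    · rw [hjl]; exact dvd_mul_right _ _
    · have hmem : l ∈ (Finset.univ.erase j).erase l0 :=
        Finset.mem_erase.2 ⟨hl, Finset.mem_erase.2 ⟨hjl, Finset.mem_univ l⟩⟩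
      rw [hP, ← Finset.mul_prod_erase _ _ hmem, ← mul_assoc]
      exact (hs l hl).2.2.mul_right _
  have hd : ∀ l, a j ∣ a l * P := by
    intro l
    by_cases hl : l = l0
    · have h1 : a l0 = - ∑ i ∈ Finset.univ.erase l0, a i := by
        have h2 := Finset.add_sum_erase Finset.univ a (Finset.mem_univ l0)
        rw [hsum] at h2
        linarith
      rw [hl, h1, neg_mul, dvd_neg, Finset.sum_mul]
      exact Finset.dvd_sum fun i hi => hd1 i (Finset.mem_erase.1 hi).1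
    · exact hd1 l hl
  have hg : a j ∣ (Finset.univ.gcd a) * P := by
    have h1 : a j ∣ Finset.univ.gcd fun l => a l * P := Finset.dvd_gcd fun l _ => hd l
    rw [Finset.gcd_mul_right] at h1
    exact h1.trans (mul_dvd_mul_left _ (normalize_dvd_iff.2 dvd_rfl))
  have hg0 : Finset.univ.gcd a ≠ 0 := by
    intro h
    rw [Finset.gcd_eq_zero_iff] at h
    exact ha j (h j (Finset.mem_univ j))
  have hgG : |Finset.univ.gcd a| ≤ G := hG _ fun i => Finset.gcd_dvd (Finset.mem_univ i)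
  have h1 : |a j| ≤ |Finset.univ.gcd a * P| :=
    Int.le_of_dvd (abs_pos.2 (mul_ne_zero hg0 hP0)) ((abs_dvd_abs _ _).2 hg)
  rw [abs_mul] at h1
  have h2 : |Finset.univ.gcd a| * |P| ≤ G * (2 * L) ^ n :=
    mul_le_mul hgG hPL (abs_nonneg _) ((abs_nonneg _).trans hgG)
  linarith

end Pool.Agent.Helper58.TW
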